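import Pool.Agent.helper62.RP.Spec

/-! # Row rp:ADJ: the adjoint in the group algebra -/

set_option autoImplicit false

open Pool.Agent.QU

namespace Pool.Agent.RP

variable {G : Type} [Group G]

theorem ADJ_coeff (a : MonoidAlgebra ℂ G) (γ : G) : (adj a).coeff γ = star (a.coeff γ⁻¹) := by
  classical
  unfold adj
  rw [MonoidAlgebra.coeff_sum, Finsupp.finset_sum_apply]
  rw [Finset.sum_eq_single γ⁻¹]
  · simp
  · intro δ _ hδ
    rw [MonoidAlgebra.coeff_single, Finsupp.single_apply, if_neg]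
    rintro rfl
    exact hδ (inv_inv δ).symm
  · intro h
    have h1 : a.coeff γ⁻¹ = 0 := by simpa using h
    simp [h1]

theorem ADJ_single (m : G) (r : ℂ) :
    adj (MonoidAlgebra.single m r) = MonoidAlgebra.single m⁻¹ (star r) := by
  classical
  ext γ
  rw [ADJ_coeff, MonoidAlgebra.coeff_single, MonoidAlgebra.coeff_single, Finsupp.single_apply,
    Finsupp.single_apply]
  by_cases h : m = γ⁻¹
  · subst h
    simp
  · rw [if_neg h, if_neg (fun h1 => h (by rw [← h1, inv_inv])), star_zero]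

theorem ADJ_add (a b : MonoidAlgebra ℂ G) : adj (a + b) = adj a + adj b := by
  ext γ
  rw [ADJ_coeff, MonoidAlgebra.coeff_add, MonoidAlgebra.coeff_add, Finsupp.add_apply,
    Finsupp.add_apply, ADJ_coeff, ADJ_coeff, star_add]

theorem ADJ_zero : adj (0 : MonoidAlgebra ℂ G) = 0 := by
  ext γ
  rw [ADJ_coeff]
  simp

theorem ADJ_adj (a : MonoidAlgebra ℂ G) : adj (adj a) = a := by
  ext γ
  rw [ADJ_coeff, ADJ_coeff, inv_inv, star_star]

theorem ADJ_mul (a b : MonoidAlgebra ℂ G) : adj (a * b) = adj b * adj a := by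
  induction a using MonoidAlgebra.induction_linear with
  | zero => rw [zero_mul, ADJ_zero, mul_zero]
  | add x y hx hy => rw [add_mul, ADJ_add, ADJ_add, mul_add, hx, hy]
  | single m r =>
    induction b using MonoidAlgebra.induction_linear with
    | zero => rw [mul_zero, ADJ_zero, zero_mul]
    | add x y hx hy => rw [mul_add, ADJ_add, ADJ_add, add_mul, hx, hy]
    | single n s =>
      rw [MonoidAlgebra.single_mul_single, ADJ_single, ADJ_single, ADJ_single,
        MonoidAlgebra.single_mul_single, mul_inv_rev, star_mul]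

theorem ADJ_ip (u v : MonoidAlgebra ℂ G) : (adj u * v).coeff 1 =
    ∑ γ ∈ v.coeff.support, star (u.coeff γ) * v.coeff γ := by
  rw [MonoidAlgebra.coeff_mul_apply_right, Finsupp.sum]
  refine Finset.sum_congr rfl fun γ _ => ?_
  rw [ADJ_coeff, one_mul, inv_inv]

theorem ADJ_l2sq (u : MonoidAlgebra ℂ G) : l2 u ^ 2 = ∑ γ ∈ u.coeff.support, ‖u.coeff γ‖ ^ 2 := by
  unfold l2
  exact Real.sq_sqrt (Finset.sum_nonneg fun _ _ => by positivity)

theorem ADJ_l2nn (u : MonoidAlgebra ℂ G) : 0 ≤ l2 u := Real.sqrt_nonneg _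

theorem ADJ_self (u : MonoidAlgebra ℂ G) : (adj u * u).coeff 1 = ((l2 u ^ 2 : ℝ) : ℂ) := by
  rw [ADJ_ip, ADJ_l2sq]
  push_cast
  refine Finset.sum_congr rfl fun γ _ => ?_
  exact Complex.conj_mul' _

theorem ADJ_cs (u v : MonoidAlgebra ℂ G) : ‖(adj u * v).coeff 1‖ ≤ l2 u * l2 v := by
  classical
  rw [ADJ_ip]
  refine (norm_sum_le _ _).trans ?_
  have h1 : ∀ γ ∈ v.coeff.support, ‖star (u.coeff γ) * v.coeff γ‖ = ‖u.coeff γ‖ * ‖v.coeff γ‖ :=
    fun γ _ => by rw [norm_mul, norm_star]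
  rw [Finset.sum_congr rfl h1]
  refine (Real.sum_mul_le_sqrt_mul_sqrt _ _ _).trans ?_
  refine mul_le_mul_of_nonneg_right ?_ (Real.sqrt_nonneg _)
  refine Real.sqrt_le_sqrt ?_
  have h2 : ∑ γ ∈ u.coeff.support, ‖u.coeff γ‖ ^ 2
      = ∑ γ ∈ u.coeff.support ∪ v.coeff.support, ‖u.coeff γ‖ ^ 2 := by
    refine Finset.sum_subset Finset.subset_union_left fun γ _ h => ?_
    have h3 : u.coeff γ = 0 := by simpa using h
    rw [h3]
    simp
  rw [h2]
  exact Finset.sum_le_sum_of_subset_of_nonneg Finset.subset_union_right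
    fun _ _ _ => by positivity

theorem ADJ_l2 (u : MonoidAlgebra ℂ G) : l2 (adj u) = l2 u := by
  have h1 : ((l2 (adj u) ^ 2 : ℝ) : ℂ) = ((l2 u ^ 2 : ℝ) : ℂ) := by
    rw [← ADJ_self, ADJ_adj, MonoidAlgebra.coeff_mul_apply_left, Finsupp.sum, ADJ_l2sq]
    push_cast
    refine Finset.sum_congr rfl fun γ _ => ?_
    rw [ADJ_coeff, mul_one, inv_inv]
    exact Complex.mul_conj' _
  have h2 : l2 (adj u) ^ 2 = l2 u ^ 2 := by exact_mod_cast h1
  exact (pow_left_inj₀ (ADJ_l2nn _) (ADJ_l2nn _) two_ne_zero).1 h2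

theorem ADJ (h1 : RNB_stmt) : ADJ_stmt := by
  intro G _ a b
  have key : ∀ a : MonoidAlgebra ℂ G, regNorm (adj a) ≤ regNorm a := by
    intro a
    obtain ⟨hn, hb, -⟩ := h1 G a b
    obtain ⟨-, -, hc, -⟩ := h1 G (adj a) b
    refine hc _ hn fun u => ?_
    set y := adj a * u with hy
    have e1 : adj y * y = adj u * (a * y) := by
      rw [hy, ADJ_mul, ADJ_adj, mul_assoc]
    have e2 : l2 y ^ 2 ≤ l2 u * (regNorm a * l2 y) := by
      have e3 : ‖(adj y * y).coeff 1‖ = l2 y ^ 2 := by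
        rw [ADJ_self, Complex.norm_real, Real.norm_of_nonneg (by positivity)]
      rw [← e3, e1]
      exact (ADJ_cs u (a * y)).trans (mul_le_mul_of_nonneg_left (hb y) (ADJ_l2nn u))
    rcases (ADJ_l2nn y).eq_or_lt with h | h
    · rw [← h]
      exact mul_nonneg hn (ADJ_l2nn u)
    · refine le_of_mul_le_mul_right ?_ h
      calc l2 y * l2 y = l2 y ^ 2 := by ring
        _ ≤ l2 u * (regNorm a * l2 y) := e2
        _ = regNorm a * l2 u * l2 y := by ring
  have key2 : regNorm (adj a) = regNorm a := by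
    apply le_antisymm (key a)
    have := key (adj a)
    rwa [ADJ_adj] at this
  obtain ⟨hn, hb, hc, -⟩ := h1 G a b
  obtain ⟨hn', hb', -⟩ := h1 G (adj a) b
  obtain ⟨hn2, hb2, -⟩ := h1 G (adj a * a) b
  refine ⟨ADJ_coeff a, ADJ_adj a, ADJ_mul a b, key2, ?_, fun u => ?_⟩
  · have e1 : regNorm a ≤ Real.sqrt (regNorm (adj a * a)) := by
      refine hc _ (Real.sqrt_nonneg _) fun u => ?_
      have e2 : l2 (a * u) ^ 2 ≤ regNorm (adj a * a) * l2 u ^ 2 := by
        have e3 : ‖(adj (a * u) * (a * u)).coeff 1‖ = l2 (a * u) ^ 2 := by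
          rw [ADJ_self, Complex.norm_real, Real.norm_of_nonneg (by positivity)]
        have e4 : adj (a * u) * (a * u) = adj u * (adj a * a * u) := by
          rw [ADJ_mul, mul_assoc, mul_assoc]
        rw [← e3, e4]
        refine (ADJ_cs u _).trans ?_
        calc l2 u * l2 (adj a * a * u) ≤ l2 u * (regNorm (adj a * a) * l2 u) :=
              mul_le_mul_of_nonneg_left (hb2 u) (ADJ_l2nn u)
          _ = regNorm (adj a * a) * l2 u ^ 2 := by ring
      refine abs_le_of_sq_le_sq' (a := l2 (a * u)) ?_ (by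
        exact mul_nonneg (Real.sqrt_nonneg _) (ADJ_l2nn u)) |>.2
      rw [mul_pow, Real.sq_sqrt hn2]
      exact e2
    calc regNorm a ^ 2 ≤ Real.sqrt (regNorm (adj a * a)) ^ 2 := by gcongr
      _ = regNorm (adj a * a) := Real.sq_sqrt hn2
  · rw [← ADJ_l2 (u * a), ADJ_mul, ← key2, ← ADJ_l2 u]
    exact hb' (adj u)

end Pool.Agent.RP
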