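import Pool.Agent.helper62.RP.Spec

/-! # Row rp:KRN: sums over closed paths, sorted by their kernels -/

set_option autoImplicit false

namespace Pool.Agent.RP

open Finset

/-- the smallest element of the class -/
noncomputable def KRN_can {n N : ℕ} (t : Fin n → Fin N) (i : Fin n) : Fin n :=
  (univ.filter fun j => t j = t i).min' ⟨i, by simp⟩

theorem KRN_can_spec {n N : ℕ} (t : Fin n → Fin N) (i : Fin n) : t (KRN_can t i) = t i := by
  have h := Finset.min'_mem (univ.filter fun j => t j = t i) ⟨i, by simp⟩
  simpa [KRN_can] using h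

theorem KRN_can_le {n N : ℕ} (t : Fin n → Fin N) (i j : Fin n) (h : t j = t i) :
    KRN_can t i ≤ j :=
  Finset.min'_le _ _ (by simpa using h)

theorem KRN_can_congr {n N : ℕ} (t : Fin n → Fin N) (i j : Fin n) (h : t i = t j) :
    KRN_can t i = KRN_can t j := by
  apply le_antisymm
  · exact KRN_can_le t i _ ((KRN_can_spec t j).trans h.symm)
  · exact KRN_can_le t j _ ((KRN_can_spec t i).trans h)

theorem KRN_Can {n N : ℕ} (t : Fin n → Fin N) : Can (KRN_can t) := fun i =>
  ⟨KRN_can_le t i i rfl, KRN_can_congr t _ _ (KRN_can_spec t i)⟩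

theorem KRN_iff {n N : ℕ} (t : Fin n → Fin N) (c : Fin n → Fin n) (hc : Can c) :
    KRN_can t = c ↔ ∀ i j, t i = t j ↔ c i = c j := by
  constructor
  · rintro rfl i j
    refine ⟨KRN_can_congr t i j, fun h => ?_⟩
    rw [← KRN_can_spec t i, h, KRN_can_spec t j]
  · intro h
    funext i
    apply le_antisymm
    · exact KRN_can_le t i _ ((h _ _).2 (hc i).2)
    · have h1 := (h _ _).1 (KRN_can_spec t i)
      rw [← h1]
      exact (hc _).1

theorem KRN_card {n N : ℕ} [NeZero n] (c : Fin n → Fin n) (hc : Can c) :
    (univ.filter fun t : Fin n → Fin N => KRN_can t = c).card = N.descFactorial (nv c) := by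
  classical
  have hfix : ∀ x ∈ univ.image c, c x = x := by
    intro x hx
    obtain ⟨i, -, rfl⟩ := Finset.mem_image.1 hx
    exact (hc i).2
  let e : {t : Fin n → Fin N // KRN_can t = c} ≃ ({x // x ∈ univ.image c} ↪ Fin N) :=
    { toFun := fun t => ⟨fun x => t.1 x.1, fun x y hxy => by
        have h1 := ((KRN_iff t.1 c hc).1 t.2 x.1 y.1).1 hxy
        rw [hfix _ x.2, hfix _ y.2] at h1
        exact Subtype.ext h1⟩
      invFun := fun e => ⟨fun i => e ⟨c i, Finset.mem_image_of_mem c (mem_univ i)⟩, by
        rw [KRN_iff _ c hc]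
        intro i j
        constructor
        · intro h
          exact congrArg Subtype.val (e.injective h)
        · intro h
          simp only [h]⟩
      left_inv := by
        rintro ⟨t, ht⟩
        apply Subtype.ext
        funext i
        exact ((KRN_iff t c hc).1 ht _ _).2 (hc i).2
      right_inv := by
        intro e
        ext x
        simp only [Function.Embedding.coeFn_mk]
        congr 2
        apply Subtype.ext
        exact hfix _ x.2 }
  rw [← Fintype.card_subtype, Fintype.card_congr e, Fintype.card_embedding_eq, Fintype.card_fin,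
    Fintype.card_coe, nv]

theorem KRN : KRN_stmt := by
  intro n N _ G G' h
  classical
  rw [← Finset.sum_fiberwise_of_maps_to (s := univ)
    (t := univ.filter fun c : Fin n → Fin n => Can c) (g := fun t : Fin n → Fin N => KRN_can t)
    (fun t _ => by simpa using KRN_Can t) G]
  refine Finset.sum_congr rfl fun c hc => ?_
  have hc' : Can c := by simpa using hc
  rw [← KRN_card (N := N) c hc', ← smul_eq_mul, ← Finset.sum_const]
  refine Finset.sum_congr rfl fun t ht => ?_
  have ht' : KRN_can t = c := by simpa using ht
  exact h t c hc' ((KRN_iff t c hc').1 ht')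

end Pool.Agent.RP
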