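import Pool.Agent.helper62.RP.Spec

/-! # Row rp:POL: the expected trace is a rational function of `1 / N` -/

set_option autoImplicit false

open Polynomial

namespace Pool.Agent.RP

theorem POL_gl_deg (L : ℕ) : (gl L).natDegree ≤ 2 * L := by
  unfold gl
  refine (natDegree_prod_le _ _).trans ?_
  have h : ∀ j ∈ Finset.range L, ((1 - C (j : ℝ) * X : ℝ[X]) ^ 2).natDegree ≤ 2 := by
    intro j _
    refine natDegree_pow_le.trans ?_
    have h1 : (1 - C (j : ℝ) * X : ℝ[X]).natDegree ≤ 1 := by compute_degree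
    omega
  refine (Finset.sum_le_sum h).trans ?_
  simp [mul_comm]

theorem POL_gl_zero (L : ℕ) : (gl L).eval 0 = 1 := by
  unfold gl
  rw [eval_prod]
  simp

theorem POL_gl_der (L : ℕ) : (gl L).derivative.eval 0 = -((L : ℝ) * (L - 1)) := by
  induction L with
  | zero => simp [gl]
  | succ L ih =>
    have h : gl (L + 1) = gl L * (1 - C (L : ℝ) * X) ^ 2 := by
      unfold gl
      rw [Finset.prod_range_succ]
    rw [h, derivative_mul, eval_add, eval_mul, eval_mul, ih, POL_gl_zero, derivative_pow]
    simp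
    ring

theorem POL_Ew (N : ℕ) : Ew N 1 = N := by
  unfold Ew
  have h1 : ∀ σ : Fin 2 → Equiv.Perm (Fin N), (fx (FreeGroup.lift σ (1 : F2)) : ℝ) = N := by
    intro σ
    simp [fx]
  rw [Finset.sum_congr rfl fun σ _ => h1 σ, Finset.sum_const, Finset.card_univ,
    Fintype.card_fun, Fintype.card_fin, Fintype.card_perm, Fintype.card_fin, nsmul_eq_mul]
  have h2 : (N.factorial : ℝ) ≠ 0 := by exact_mod_cast N.factorial_ne_zero
  push_cast
  field_simp

theorem POL (h1 : EXP_stmt) : POL_stmt := by
  intro b L hL hb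
  classical
  have hex : ∀ w : F2, ∃ P : ℝ[X], P.natDegree ≤ 2 * L ∧ (w ∈ b.coeff.support.erase 1 →
      (∀ N : ℕ, L ≤ N → Ew N w * (gl L).eval (1 / (N : ℝ)) = P.eval (1 / (N : ℝ))) ∧
        P.eval 0 = dv L w) := by
    intro w
    by_cases hw : w ∈ b.coeff.support.erase 1
    · rw [Finset.mem_erase] at hw
      obtain ⟨P, hP1, hP2, hP3⟩ := h1 L w hw.1 (hb w hw.2)
      exact ⟨P, hP1, fun _ => ⟨hP2, hP3⟩⟩
    · exact ⟨0, by simp, fun h => absurd h hw⟩
  choose P hPd hP using hex
  refine ⟨C (b.coeff 1).re * ((1 - X) * gl L) +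
    X * ∑ w ∈ b.coeff.support.erase 1, C (b.coeff w).re * (P w - gl L), ?_, ?_, ?_, ?_⟩
  · have hg := POL_gl_deg L
    refine (natDegree_add_le _ _).trans (max_le ?_ ?_)
    · refine (natDegree_C_mul_le _ _).trans (natDegree_mul_le.trans ?_)
      have h2 : (1 - X : ℝ[X]).natDegree ≤ 1 := by compute_degree
      omega
    · refine natDegree_mul_le.trans ?_
      have h2 : (∑ w ∈ b.coeff.support.erase 1, C (b.coeff w).re * (P w - gl L)).natDegree
          ≤ 2 * L := by
        refine natDegree_sum_le_of_forall_le _ _ fun w _ => ?_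
        refine (natDegree_C_mul_le _ _).trans ((natDegree_sub_le _ _).trans ?_)
        exact max_le (hPd w) hg
      have h3 : (X : ℝ[X]).natDegree ≤ 1 := natDegree_X_le
      omega
  · intro N hN
    have hN0 : (N : ℝ) ≠ 0 := by
      have : 0 < N := by omega
      exact_mod_cast this.ne'
    have h2 : TT N b = (b.coeff 1).re * ((N : ℝ) - 1) +
        ∑ w ∈ b.coeff.support.erase 1, (b.coeff w).re * (Ew N w - 1) := by
      unfold TT
      by_cases h : (1 : F2) ∈ b.coeff.support
      · rw [← Finset.add_sum_erase _ _ h, POL_Ew]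
      · have h3 : b.coeff 1 = 0 := by simpa using h
        rw [Finset.erase_eq_of_notMem h, h3]
        simp
    rw [h2, eval_add, eval_mul, eval_mul, eval_mul, eval_C, eval_sub, eval_X, eval_one,
      eval_finset_sum, add_div, mul_add, Finset.sum_div, Finset.mul_sum, Finset.mul_sum]
    congr 1
    · field_simp
    · refine Finset.sum_congr rfl fun w hw => ?_
      rw [eval_mul, eval_C, eval_sub, ← ((hP w) hw).1 N hN]
      field_simp
  · simp [eval_add, eval_mul, POL_gl_zero]
  · rw [derivative_add, derivative_C_mul, derivative_mul, derivative_mul (f := X), eval_add,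
      eval_mul, eval_add, eval_mul, eval_mul, eval_add, eval_mul, eval_mul, POL_gl_zero,
      POL_gl_der, eval_finset_sum]
    have h3 : ∀ w ∈ b.coeff.support.erase 1, (C (b.coeff w).re * (P w - gl L)).eval 0
        = (b.coeff w).re * ((dv L w : ℝ) - 1) := by
      intro w hw
      rw [eval_mul, eval_C, eval_sub, ((hP w) hw).2, POL_gl_zero]
    rw [Finset.sum_congr rfl h3]
    simp
    ring

end Pool.Agent.RP
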